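import Pool.Agent.Lib.MP_1a91b9_ntT3.S9.Defs

/-!
# The conjecture of Birch and Swinnerton-Dyer modulo a prime number
-/

set_option autoImplicit false

namespace Pool.Agent.Lib.MP_1a91b9_ntS

open NumberField IsDedekindDomain WeierstrassCurve Pool.Agent.Lib.MP_1a91b9_ntT.S9
open Pool.Agent.Lib.MP_1a91b9_ntT3.S9 (ShaP)
open scoped Classical

noncomputable section

variable {N : Type*} [Field N] [NumberField N]

/-- The conjecture of Birch and Swinnerton-Dyer for `W` over `N` modulo `p`, with the normalised value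
`q`: the L-series of `W` has an entire continuation `g` and
`g(1) √|D| / Ω = q * ∏ c_v / #W(N)[p^∞]²`; the denominator of the rational number `q` is prime to `p`,
and its numerator is prime to `p` if and only if `W(N)` is finite and `Sha[p^∞]` is trivial. -/
def BSDMod (p : ℕ) [Fact p.Prime] (W : WeierstrassCurve N) (q : ℚ) : Prop :=
  (∃ g : ℂ → ℂ, Differentiable ℂ g ∧ (∀ s : ℂ, 3 / 2 < s.re → g s = W.LSeries s) ∧
    g 1 * (√|(discr N : ℝ)| : ℝ) / (period W : ℝ) =
      (q * (((∏ᶠ v : HeightOneSpectrum (𝓞 N), tam W v : ℕ) : ℝ) /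
        (Nat.card (AddCommGroup.primaryComponent W.toAffine.Point p) : ℝ) ^ 2) : ℝ)) ∧
    ¬ p ∣ q.den ∧
    (¬ (p : ℤ) ∣ q.num ↔ Finite W.toAffine.Point ∧ Nat.card (ShaP p W) = 1)

end

end Pool.Agent.Lib.MP_1a91b9_ntS
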